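import Pool.Agent.Y881.CS.Fin

/-! Project CS: the general bound for sets containing a subset of large additive energy (helper881). -/

set_option autoImplicit false

namespace Pool.Agent.Y881.CS

open Finset Pool.Agent.TH858 Pool.Agent.TH858.GP
open scoped Pointwise

lemma log_le_fifth (ℓ : ℝ) (hℓ : 0.69 ≤ ℓ) :
    ∃ w : ℝ, 0 < w ∧ w ^ 5 = ℓ ∧ Real.log (2 + ℓ) ≤ 13 * w := by
  have hℓ0 : (0 : ℝ) < ℓ := by linarith
  obtain ⟨w, hw⟩ : ∃ w : ℝ, w = ℓ ^ ((1 : ℝ) / 5) := ⟨_, rfl⟩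
  have hw0 : 0 < w := by rw [hw]; positivity
  have hw5 : w ^ 5 = ℓ := by
    rw [hw, ← Real.rpow_natCast, ← Real.rpow_mul hℓ0.le]
    norm_num
  have hw1 : 0.69 ≤ w := by
    by_contra hcon
    push Not at hcon
    have h1 : w ^ 5 < 0.69 ^ 5 := pow_lt_pow_left₀ hcon hw0.le (by norm_num)
    rw [hw5] at h1
    norm_num at h1
    linarith
  refine ⟨w, hw0, hw5, ?_⟩
  have h1 : 2 + ℓ ≤ (2 + w) ^ 5 := by
    rw [← hw5]
    have : (2 + w) ^ 5 = w ^ 5 + 10 * w ^ 4 + 40 * w ^ 3 + 80 * w ^ 2 + 80 * w + 32 := by ring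
    rw [this]
    have : 0 ≤ 10 * w ^ 4 + 40 * w ^ 3 + 80 * w ^ 2 + 80 * w := by positivity
    linarith
  have h2 := Real.log_le_log (by linarith) h1
  rw [Real.log_pow] at h2
  have h3 := Real.log_le_sub_one_of_pos (show (0 : ℝ) < 2 + w by linarith)
  push_cast at h2
  linarith

lemma pow4_log_le' (ℓ k : ℝ) (hℓ : 0.69 ≤ ℓ) (hk0 : 0 ≤ k) :
    k ^ 4 * Real.log (2 + ℓ) ≤ 13 * (ℓ + k ^ 5) := by
  obtain ⟨w, hw0, hw5, hlog⟩ := log_le_fifth ℓ hℓ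
  have h1 : k ^ 4 * w ≤ ℓ + k ^ 5 := by
    rcases le_total w k with h | h
    · calc k ^ 4 * w ≤ k ^ 4 * k := mul_le_mul_of_nonneg_left h (by positivity)
        _ = k ^ 5 := by ring
        _ ≤ ℓ + k ^ 5 := by linarith
    · calc k ^ 4 * w ≤ w ^ 4 * w := mul_le_mul_of_nonneg_right (pow_le_pow_left₀ hk0 h 4) hw0.le
        _ = ℓ := by rw [← hw5]; ring
        _ ≤ ℓ + k ^ 5 := by
            have : 0 ≤ k ^ 5 := by positivity
            linarith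
  calc k ^ 4 * Real.log (2 + ℓ) ≤ k ^ 4 * (13 * w) := mul_le_mul_of_nonneg_left hlog (by positivity)
    _ = 13 * (k ^ 4 * w) := by ring
    _ ≤ _ := by linarith

lemma log2_lb (x : ℝ) (hx : 0 ≤ x) : 0.69 ≤ Real.log (2 + x) := by
  have h1 : Real.log 2 ≤ Real.log (2 + x) := Real.log_le_log (by norm_num) (by linarith)
  have h3 := Real.log_two_gt_d9
  linarith

/-- comparison of `kap` with `κ log (2 + κ)` -/
lemma kap_le (κ y : ℝ) (hκ : 0.69 ≤ κ) (hy0 : 0 ≤ y) (hy : y ≤ 45 * κ) :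
    y * (1 + Real.log (1 + y)) ≤ 405 * (κ * Real.log (2 + κ)) := by
  have h1 : Real.log (1 + y) ≤ Real.log (64 * (2 + κ)) := Real.log_le_log (by linarith) (by nlinarith)
  have h2 : Real.log (64 * (2 + κ)) = Real.log 64 + Real.log (2 + κ) :=
    Real.log_mul (by norm_num) (by linarith)
  have h3 : Real.log 64 = 6 * Real.log 2 := by
    rw [show (64 : ℝ) = 2 ^ 6 by norm_num, Real.log_pow]; norm_num
  have h4 := Real.log_two_lt_d9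
  have h5 := log2_lb κ (by linarith)
  have h6 : 1 + Real.log (1 + y) ≤ 9 * Real.log (2 + κ) := by
    rw [h2, h3] at h1
    linarith
  have h7 : 0 ≤ 1 + Real.log (1 + y) := by
    have := Real.log_nonneg (show (1 : ℝ) ≤ 1 + y by linarith)
    linarith
  calc y * (1 + Real.log (1 + y)) ≤ (45 * κ) * (9 * Real.log (2 + κ)) :=
        mul_le_mul hy h6 h7 (by linarith)
    _ = _ := by ring

/-- `Q1` range: if `κ ^ 5 log (2 + κ) ^ 4 ≤ C₀ ℓ` then `(κ log (2 + κ)) ^ 5 ≤ C₁ ℓ log (2 + ℓ)`. -/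
lemma q1_range (C₀ κ ℓ : ℝ) (hC₀ : 0 < C₀) (hκ : 0.69 ≤ κ) (hℓ : 0.69 ≤ ℓ)
    (h : κ ^ 5 * Real.log (2 + κ) ^ 4 ≤ C₀ * ℓ) :
    (κ * Real.log (2 + κ)) ^ 5 ≤ C₀ * (1 + (3 + 5 * C₀) / 0.69) * (ℓ * Real.log (2 + ℓ)) := by
  have hk := log2_lb κ (by linarith)
  have hl := log2_lb ℓ (by linarith)
  have h1 : 0.69 ^ 4 ≤ Real.log (2 + κ) ^ 4 := pow_le_pow_left₀ (by norm_num) hk 4
  have h2 : κ ≤ 1 + 5 * C₀ * ℓ := by
    rcases le_total κ 1 with h3 | h3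
    · have : 0 ≤ 5 * C₀ * ℓ := by positivity
      linarith
    · have h4 : κ ≤ κ ^ 5 := by
        calc κ = κ ^ 1 := (pow_one κ).symm
          _ ≤ κ ^ 5 := pow_le_pow_right₀ h3 (by norm_num)
      have h5 : κ ^ 5 * 0.69 ^ 4 ≤ κ ^ 5 * Real.log (2 + κ) ^ 4 :=
        mul_le_mul_of_nonneg_left h1 (by positivity)
      have h6 : (0.2 : ℝ) ≤ 0.69 ^ 4 := by norm_num
      have h7 : κ ^ 5 * 0.2 ≤ κ ^ 5 * 0.69 ^ 4 := mul_le_mul_of_nonneg_left h6 (by positivity)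
      linarith
  have h3 : 2 + κ ≤ (3 + 5 * C₀) * (2 + ℓ) := by
    have h4 : (3 + 5 * C₀) * (2 + ℓ) = 6 + 3 * ℓ + 10 * C₀ + 5 * C₀ * ℓ := by ring
    rw [h4]
    have : 0 ≤ 10 * C₀ := by positivity
    linarith
  have h4 : Real.log (2 + κ) ≤ (1 + (3 + 5 * C₀) / 0.69) * Real.log (2 + ℓ) := by
    have h5 := Real.log_le_log (by linarith) h3
    rw [Real.log_mul (by positivity) (by positivity)] at h5
    have h6 : Real.log (3 + 5 * C₀) ≤ 3 + 5 * C₀ := by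
      have := Real.log_le_sub_one_of_pos (show (0 : ℝ) < 3 + 5 * C₀ by positivity)
      linarith
    have h7 : 3 + 5 * C₀ ≤ (3 + 5 * C₀) / 0.69 * Real.log (2 + ℓ) := by
      rw [div_mul_eq_mul_div, le_div_iff₀ (by norm_num)]
      exact mul_le_mul_of_nonneg_left hl (by positivity)
    linarith
  calc (κ * Real.log (2 + κ)) ^ 5 = (κ ^ 5 * Real.log (2 + κ) ^ 4) * Real.log (2 + κ) := by ring
    _ ≤ (C₀ * ℓ) * ((1 + (3 + 5 * C₀) / 0.69) * Real.log (2 + ℓ)) :=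
        mul_le_mul h h4 (by linarith) (by positivity)
    _ = _ := by ring

/-- numerical part of the count -/
lemma main_num (C C₀ q ℓ k LB LR Ll kp5 kp4 G : ℝ) (hC : 0 < C) (hC₀ : 0 < C₀) (hq : 0 < q) (hℓ : 0 < ℓ)
    (hk : 0 ≤ k) (hLl : 0 < Ll) (hLR : Ll ≤ LR) (h1 : LB ≤ (4 * C₀ + 5) * ℓ) (h2 : kp5 ≤ q * k ^ 5)
    (h3 : kp4 ≤ q * k ^ 4) (h4 : k ^ 4 * Ll ≤ 13 * (ℓ + k ^ 5)) (h5 : G ≤ C * ((LB + kp5) / LR + kp4)) :
    G ≤ C * (4 * C₀ + 5 + 14 * q) * ((ℓ + k ^ 5) / Ll) := by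
  have hk5 : 0 ≤ k ^ 5 := by positivity
  have e1 : (LB + kp5) / LR ≤ ((4 * C₀ + 5) * ℓ + q * k ^ 5) / Ll := by
    apply div_le_div₀ (by positivity) (add_le_add h1 h2) hLl hLR
  have e2 : kp4 ≤ (q * (13 * (ℓ + k ^ 5))) / Ll := by
    rw [le_div_iff₀ hLl]
    calc kp4 * Ll ≤ (q * k ^ 4) * Ll := mul_le_mul_of_nonneg_right h3 hLl.le
      _ = q * (k ^ 4 * Ll) := by ring
      _ ≤ q * (13 * (ℓ + k ^ 5)) := mul_le_mul_of_nonneg_left h4 hq.le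
  refine h5.trans ?_
  rw [mul_assoc]
  refine mul_le_mul_of_nonneg_left ?_ hC.le
  refine (add_le_add e1 e2).trans ?_
  rw [← add_div, ← mul_div_assoc]
  apply div_le_div_of_nonneg_right _ hLl.le
  have h5 : (4 * C₀ + 5 + 14 * q) * (ℓ + k ^ 5) =
    (4 * C₀ + 5) * ℓ + q * k ^ 5 + q * (13 * (ℓ + k ^ 5)) + ((4 * C₀ + 5) * k ^ 5 + q * ℓ) := by
    ring
  rw [h5]
  have : 0 ≤ (4 * C₀ + 5) * k ^ 5 + q * ℓ := by positivity
  linarith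

/-- **The general bound** for sets containing a subset of large additive energy. -/
theorem fin2 (hth : S_TH1) (C₀ : ℝ) (hC₀ : 0 < C₀) : ∃ C c : ℝ, 0 < C ∧ 0 < c ∧
    ∀ (N : ℕ) [NeZero N] (A A₁ : Finset (ZMod N)) (K : ℝ), A₁ ⊆ A → A₁.Nonempty →
    (A.card : ℝ) / N ≤ 1 / 2 → 1 ≤ K → (A₁.card : ℝ) ^ 3 ≤ K * (A₁.addEnergy A₁ : ℕ) →
    Real.log ((N : ℝ) / A₁.card) ≤ C₀ * Real.log ((N : ℝ) / A.card) →
    ∃ (Γ : Finset (ZMod N)) (ε : ℝ), 0 < ε ∧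
      c / Real.log ((N : ℝ) / A.card) ≤ ε ∧
      (Γ.card : ℝ) ≤ C * ((Real.log ((N : ℝ) / A.card) + (Real.log (2 * K) * Real.log (2 + Real.log (2 * K))) ^ 5) /
        Real.log (2 + Real.log ((N : ℝ) / A.card))) ∧
      (Real.log (2 * K) ^ 5 * Real.log (2 + Real.log (2 * K)) ^ 4 ≤ C₀ * Real.log ((N : ℝ) / A.card) →
        (Γ.card : ℝ) ≤ C * Real.log ((N : ℝ) / A.card)) ∧
      ∀ x : ZMod N, (∀ g ∈ Γ, CB.nn (g * x) ≤ ε) →
        ∃ a₁ ∈ A, ∃ a₂ ∈ A, ∃ a₃ ∈ A, ∃ a₄ ∈ A, x = a₁ + a₂ - a₃ - a₄ := by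
  classical
  obtain ⟨C, hC, hth⟩ := hth
  obtain ⟨q, hq⟩ : ∃ q : ℝ, q = 405 ^ 5 := ⟨_, rfl⟩
  have hq0 : 0 < q := by rw [hq]; positivity
  have hq4 : (405 : ℝ) ^ 4 ≤ q := by rw [hq]; norm_num
  obtain ⟨D, hD⟩ : ∃ D : ℝ, D = C * (4 * C₀ + 5 + 14 * q) := ⟨_, rfl⟩
  have hD0 : 0 < D := by rw [hD]; positivity
  obtain ⟨E, hE'⟩ : ∃ E : ℝ, E = 1 / 0.69 + C₀ * (1 + (3 + 5 * C₀) / 0.69) := ⟨_, rfl⟩
  have hE1 : 1 ≤ E := by
    rw [hE']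
    have : (0 : ℝ) ≤ C₀ * (1 + (3 + 5 * C₀) / 0.69) := by positivity
    have : (1 : ℝ) ≤ 1 / 0.69 := by norm_num
    linarith
  refine ⟨D * E, 1 / (8 * (13500 * (C₀ + 1) + 3)), by positivity, by positivity, ?_⟩
  intro N _ A A₁ K hsub hne hα hK hE hℓ₁
  have hNpos : (0 : ℝ) < N := Nat.cast_pos.mpr (NeZero.pos N)
  have hA₁pos : (0 : ℝ) < A₁.card := by exact_mod_cast hne.card_pos
  have hApos : (0 : ℝ) < A.card := by
    exact_mod_cast (hne.mono hsub).card_pos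
  have hA₁N : (A₁.card : ℝ) ≤ N := by
    have h1 := Finset.card_le_univ A₁
    rw [ZMod.card] at h1
    exact_mod_cast h1
  obtain ⟨ℓ, hℓ⟩ : ∃ ℓ : ℝ, ℓ = Real.log ((N : ℝ) / A.card) := ⟨_, rfl⟩
  rw [← hℓ] at hℓ₁ ⊢
  have hℓ2 : Real.log 2 ≤ ℓ := by
    have h1 : (2 : ℝ) ≤ N / A.card := by
      rw [div_le_iff₀ hNpos] at hα
      rw [le_div_iff₀ hApos]
      linarith
    rw [hℓ]
    exact Real.log_le_log (by norm_num) h1
  have hlog2 := Real.log_two_gt_d9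
  have hℓ0 : 0.69 ≤ ℓ := by linarith
  have hℓpos : 0 < ℓ := by linarith
  obtain ⟨κ, hκd⟩ : ∃ κ : ℝ, κ = Real.log (2 * K) := ⟨_, rfl⟩
  rw [← hκd]
  have hκ0 : 0.69 ≤ κ := by
    have h1 : Real.log 2 ≤ Real.log (2 * K) := Real.log_le_log (by norm_num) (by linarith)
    rw [hκd]; linarith
  -- the trivial bound for the energy
  obtain ⟨K', hK'⟩ : ∃ K' : ℝ, K' = min K ((N : ℝ) / A₁.card) := ⟨_, rfl⟩
  have hK'1 : 1 ≤ K' := by
    rw [hK']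
    refine le_min hK ?_
    rw [le_div_iff₀ hA₁pos]
    linarith
  have hK'0 : 0 < K' := by linarith
  have hK'K : K' ≤ K := by rw [hK']; exact min_le_left _ _
  have hK'N : K' ≤ (N : ℝ) / A₁.card := by rw [hK']; exact min_le_right _ _
  have hEtriv : (A₁.card : ℝ) ^ 3 ≤ (N : ℝ) / A₁.card * (A₁.addEnergy A₁ : ℕ) := by
    have h1 := Finset.le_card_add_mul_addEnergy A₁ A₁
    have h2 : (A₁ + A₁).card ≤ N := by
      have := Finset.card_le_univ (A₁ + A₁)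
      rwa [ZMod.card] at this
    have h3 : A₁.card ^ 2 * A₁.card ^ 2 ≤ N * A₁.addEnergy A₁ := h1.trans (Nat.mul_le_mul_right _ h2)
    have h4 : (A₁.card : ℝ) ^ 2 * (A₁.card : ℝ) ^ 2 ≤ N * (A₁.addEnergy A₁ : ℕ) := by exact_mod_cast h3
    rw [div_mul_eq_mul_div, le_div_iff₀ hA₁pos]
    calc (A₁.card : ℝ) ^ 3 * A₁.card = (A₁.card : ℝ) ^ 2 * (A₁.card : ℝ) ^ 2 := by ring
      _ ≤ _ := h4
  have hE'' : (A₁.card : ℝ) ^ 3 ≤ K' * (A₁.addEnergy A₁ : ℕ) := by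
    rcases le_total K ((N : ℝ) / A₁.card) with h | h
    · rw [hK', min_eq_left h]; exact hE
    · rw [hK', min_eq_right h]; exact hEtriv
  obtain ⟨κ', hκ'd⟩ : ∃ κ' : ℝ, κ' = Real.log (2 * K') := ⟨_, rfl⟩
  have hκ'κ : κ' ≤ κ := by
    rw [hκ'd, hκd]
    exact Real.log_le_log (by positivity) (by linarith)
  have hκ'ℓ : κ' ≤ (C₀ + 1) * ℓ := by
    have h1 : κ' ≤ Real.log (2 * ((N : ℝ) / A₁.card)) := by
      rw [hκ'd]
      exact Real.log_le_log (by positivity) (by linarith)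
    rw [Real.log_mul (by norm_num) (div_pos hNpos hA₁pos).ne'] at h1
    have : (C₀ + 1) * ℓ = C₀ * ℓ + ℓ := by ring
    rw [this]
    linarith only [h1, hℓ₁, hℓ2]
  have hκ'0 : 0.69 ≤ κ' := by
    have h1 : Real.log 2 ≤ Real.log (2 * K') := Real.log_le_log (by norm_num) (by linarith)
    rw [hκ'd]; linarith
  obtain ⟨B, hBA, hBne, hBc, hBB⟩ := Pool.Agent.H217R3.AK.bsg A₁ hne K' hK'0 hE''
  have hBpos : (0 : ℝ) < B.card := by exact_mod_cast hBne.card_pos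
  have hB2 := card_add_self_le B (2 ^ 22 * K' ^ 10) hBne hBB
  obtain ⟨K₂, hK₂⟩ : ∃ K₂ : ℝ, K₂ = (2 ^ 22 * K' ^ 10) ^ 2 := ⟨_, rfl⟩
  rw [← hK₂] at hB2
  have hK₂1 : 1 ≤ K₂ := by
    rw [hK₂]
    have h1 : (1 : ℝ) ≤ K' ^ 10 := one_le_pow₀ hK'1
    have h2 : (1 : ℝ) ≤ 2 ^ 22 * K' ^ 10 := by
      have : (1 : ℝ) ≤ 2 ^ 22 := by norm_num
      nlinarith
    exact one_le_pow₀ h2
  have hlogK' := Real.log_nonneg hK'1
  have hκ'e : κ' = Real.log 2 + Real.log K' := by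
    rw [hκ'd, Real.log_mul (by norm_num) hK'0.ne']
  have hκ₂ : Real.log (2 * K₂) ≤ 45 * κ' := by
    have h1 : 2 * K₂ = 2 ^ 45 * K' ^ 20 := by rw [hK₂]; ring
    rw [h1, Real.log_mul (by positivity) (by positivity), Real.log_pow, Real.log_pow, hκ'e]
    push_cast
    linarith only [hlogK']
  have hκ₂0 : 0.69 ≤ Real.log (2 * K₂) := by
    have h1 : Real.log 2 ≤ Real.log (2 * K₂) := Real.log_le_log (by norm_num) (by linarith)
    linarith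
  obtain ⟨R, hR⟩ : ∃ R : ℝ, R = 13500 * ((C₀ + 1) * ℓ) + 2 := ⟨_, rfl⟩
  have hRκ : 300 * Real.log (2 * K₂) + 2 ≤ R := by
    rw [hR]
    linarith only [hκ₂, hκ'ℓ]
  have hRℓ : 2 + ℓ ≤ R := by
    rw [hR]
    have h1 : 0 ≤ C₀ * ℓ := by positivity
    have h2 : 13500 * ((C₀ + 1) * ℓ) = 13500 * (C₀ * ℓ) + 13500 * ℓ := by ring
    rw [h2]
    linarith only [h1, hℓpos]
  have hRup : R ≤ (13500 * (C₀ + 1) + 3) * ℓ := by
    rw [hR]
    have : (13500 * (C₀ + 1) + 3) * ℓ = 13500 * ((C₀ + 1) * ℓ) + 3 * ℓ := by ring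
    rw [this]
    linarith only [hℓ0]
  have hR0 : 0 < R := by linarith only [hRℓ, hℓpos]
  obtain ⟨Γ, hΓ, hΓ'⟩ := hth N B K₂ R hBne hB2 hRκ
  have hlogl : 0.69 ≤ Real.log (2 + ℓ) := log2_lb ℓ hℓpos.le
  have hlogl0 : 0 < Real.log (2 + ℓ) := by linarith
  have hlogk : 0.69 ≤ Real.log (2 + κ) := log2_lb κ (by linarith)
  have hlogR : Real.log (2 + ℓ) ≤ Real.log R := Real.log_le_log (by linarith) hRℓ
  obtain ⟨k, hk⟩ : ∃ k : ℝ, k = κ * Real.log (2 + κ) := ⟨_, rfl⟩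
  have hk0 : 0 ≤ k := by rw [hk]; positivity
  have hk50 : 0 ≤ k ^ 5 := by positivity
  have hkap : kap K₂ ≤ 405 * k := by
    rw [hk]
    exact kap_le κ (Real.log (2 * K₂)) hκ0 (by linarith only [hκ₂0]) (by linarith only [hκ₂, hκ'κ])
  have hkap0 : 0 ≤ kap K₂ := by
    unfold kap
    have := Real.log_nonneg (show (1 : ℝ) ≤ 1 + Real.log (2 * K₂) by linarith)
    have h2 : 0 ≤ Real.log (2 * K₂) := by linarith
    positivity
  have hkap5 : kap K₂ ^ 5 ≤ q * k ^ 5 := by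
    calc kap K₂ ^ 5 ≤ (405 * k) ^ 5 := pow_le_pow_left₀ hkap0 hkap 5
      _ = _ := by rw [mul_pow, hq]
  have hkap4 : kap K₂ ^ 4 ≤ q * k ^ 4 := by
    calc kap K₂ ^ 4 ≤ (405 * k) ^ 4 := pow_le_pow_left₀ hkap0 hkap 4
      _ = 405 ^ 4 * k ^ 4 := mul_pow _ _ _
      _ ≤ q * k ^ 4 := mul_le_mul_of_nonneg_right hq4 (by positivity)
  clear hq hq4
  have hℓB : Real.log ((N : ℝ) / B.card) ≤ (4 * C₀ + 5) * ℓ := by
    have h1 : (N : ℝ) / B.card ≤ (N / A₁.card) * (8 * K') := by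
      rw [div_le_iff₀ hBpos]
      have e : (N : ℝ) = N / A₁.card * A₁.card := (div_mul_cancel₀ _ hA₁pos.ne').symm
      calc (N : ℝ) = N / A₁.card * A₁.card := e
        _ ≤ N / A₁.card * (8 * K' * B.card) := mul_le_mul_of_nonneg_left hBc (div_nonneg hNpos.le hA₁pos.le)
        _ = _ := by ring
    have h2 := Real.log_le_log (div_pos hNpos hBpos) h1
    rw [Real.log_mul (div_pos hNpos hA₁pos).ne' (by positivity)] at h2
    have h3 : Real.log (8 * K') ≤ 3 * κ' := by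
      rw [hκ'e, Real.log_mul (by norm_num) hK'0.ne']
      have h4 : Real.log 8 = 3 * Real.log 2 := by
        rw [show (8 : ℝ) = 2 ^ 3 by norm_num, Real.log_pow]; norm_num
      rw [h4]
      linarith only [hlogK', hlog2]
    have h4 : 3 * κ' ≤ 3 * ((C₀ + 1) * ℓ) := by linarith only [hκ'ℓ]
    have : (4 * C₀ + 5) * ℓ = C₀ * ℓ + 3 * ((C₀ + 1) * ℓ) + 2 * ℓ := by ring
    rw [this]
    linarith only [h2, h3, h4, hℓ₁, hℓpos]
  have hmain : (Γ.card : ℝ) ≤ D * ((ℓ + k ^ 5) / Real.log (2 + ℓ)) := by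
    rw [hD]
    exact main_num C C₀ q ℓ k _ _ _ _ _ _ hC hC₀ hq0 hℓpos hk0 hlogl0 hlogR hℓB hkap5 hkap4
      (pow4_log_le' ℓ k hℓ0 hk0) hΓ
  refine ⟨Γ, 1 / (8 * R), by positivity, ?_, ?_, ?_, ?_⟩
  · rw [div_div, div_le_div_iff₀ (by positivity) (by positivity)]
    linarith only [hRup]
  · refine hmain.trans ?_
    have h1 : 0 ≤ D * ((ℓ + k ^ 5) / Real.log (2 + ℓ)) := by positivity
    calc D * ((ℓ + k ^ 5) / Real.log (2 + ℓ)) = D * ((ℓ + k ^ 5) / Real.log (2 + ℓ)) * 1 := (mul_one _).symm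
      _ ≤ D * ((ℓ + k ^ 5) / Real.log (2 + ℓ)) * E := mul_le_mul_of_nonneg_left hE1 h1
      _ = _ := by rw [hk]; ring
  · intro hr
    have h1 := q1_range C₀ κ ℓ hC₀ hκ0 hℓ0 hr
    rw [← hk] at h1
    refine hmain.trans ?_
    rw [mul_assoc]
    refine mul_le_mul_of_nonneg_left ?_ hD0.le
    rw [div_le_iff₀ hlogl0, hE']
    have h2 : ℓ ≤ 1 / 0.69 * (ℓ * Real.log (2 + ℓ)) := by
      rw [div_mul_eq_mul_div, le_div_iff₀ (by norm_num)]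
      have := mul_le_mul_of_nonneg_left hlogl hℓpos.le
      linarith only [this]
    have h3 : (1 / 0.69 + C₀ * (1 + (3 + 5 * C₀) / 0.69)) * ℓ * Real.log (2 + ℓ) =
      1 / 0.69 * (ℓ * Real.log (2 + ℓ)) + C₀ * (1 + (3 + 5 * C₀) / 0.69) * (ℓ * Real.log (2 + ℓ)) := by ring
    rw [h3]
    linarith only [h1, h2]
  · intro x hx
    obtain ⟨a₁, h1, a₂, h2, a₃, h3, a₄, h4, h5⟩ := hΓ' x hx
    exact ⟨a₁, hsub (hBA h1), a₂, hsub (hBA h2), a₃, hsub (hBA h3), a₄, hsub (hBA h4), h5⟩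

end Pool.Agent.Y881.CS
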