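import Mathlib
import Pool.Agent.TH858.GP.Dense2
import Pool.Agent.TH858.GP.Coset
import Pool.Agent.H112R2.Main
import Pool.Agent.H112R2.John

/-!
# Project CS (helper881): statements

Bogolyubov-Ruzsa in `ℤ/N` with Bohr sets of small dimension and large radius: Croot-Sisask almost
periodicity, the argument of Sanders, a local version of Chang's theorem, and the near-polynomial
Freiman-Ruzsa theorem of `Pool.Agent.H112R2`.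
-/

set_option autoImplicit false

namespace Pool.Agent.Y881.CS

open Finset Pool.Agent.TH858 Pool.Agent.TH858.GP
open scoped Pointwise

/-- proportion of the `a ∈ A` with `a + z ∈ B` -/
noncomputable def gg {G : Type} [AddCommGroup G] [DecidableEq G] (A B : Finset G) (z : G) : ℝ :=
  ((A.filter fun a => a + z ∈ B).card : ℝ) / A.card

/-- probability that `t + a - a' ∈ B` for independent uniform `a, a' ∈ A` -/
noncomputable def pr {G : Type} [AddCommGroup G] [DecidableEq G] (A B : Finset G) (t : G) : ℝ :=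
  (∑ a' ∈ A, gg A B (t - a')) / A.card

/-- average of `f (x + ∑ (tᵢ - tᵢ'))` over `tᵢ, tᵢ' ∈ T`, `i < k` -/
noncomputable def av {G : Type} [AddCommGroup G] [DecidableEq G] (k : ℕ) (T : Finset G) (f : G → ℝ) (x : G) : ℝ :=
  (∑ s ∈ Fintype.piFinset (fun _ : Fin k => T ×ˢ T), f (x + ∑ i, ((s i).1 - (s i).2))) /
    ((T.card : ℝ) ^ 2) ^ k

/-- **MZ**: a moment inequality for sums of independent bounded variables of mean zero. -/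
def S_MZ : Prop :=
  ∀ (α : Type) [Fintype α] [DecidableEq α] [Nonempty α] (h : α → ℝ) (n m : ℕ), 1 ≤ m → m ≤ n →
    ∑ a, h a = 0 → (∀ a, |h a| ≤ 1) →
    ∑ f : Fin n → α, (∑ i, h (f i)) ^ (2 * m) ≤
      (3 * m * n : ℝ) ^ m * (Fintype.card α : ℝ) ^ (n - 1) * ∑ a, h a ^ 2

/-- **CS**: the Croot-Sisask lemma. -/
def S_CS : Prop :=
  ∀ (G : Type) [AddCommGroup G] [Fintype G] [DecidableEq G] (A X B : Finset G) (M ε : ℝ) (n m : ℕ),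
    A.Nonempty → X.Nonempty → 1 ≤ M → ((A + X).card : ℝ) ≤ M * A.card → 1 ≤ m → m ≤ n → 0 < ε →
    24 * (m : ℝ) ≤ n * ε ^ 2 →
    ∃ T ⊆ X, (X.card : ℝ) ≤ 2 * M ^ n * T.card ∧ ∀ t ∈ T, ∀ t' ∈ T,
      ∑ z : G, |gg A B (z + t - t') - gg A B z| ^ (2 * m) ≤ ε ^ (2 * m) * B.card

/-- **PER**: almost periods of `pr A (A - A)`. -/
def S_PER : Prop :=
  ∃ C : ℝ, 0 < C ∧ ∀ (G : Type) [AddCommGroup G] [Fintype G] [DecidableEq G] (A X : Finset G) (M : ℝ) (k : ℕ),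
    A.Nonempty → X.Nonempty → 2 ≤ M → ((A + X).card : ℝ) ≤ M * A.card →
    ((A - A).card : ℝ) ≤ M * A.card → 1 ≤ k →
    ∃ T ⊆ X, T.Nonempty ∧ (X.card : ℝ) ≤ Real.exp (C * k ^ 2 * Real.log M ^ 2) * T.card ∧
      ∀ t ∈ T, ∀ t' ∈ T, ∀ v, |pr A (A - A) (v + t - t') - pr A (A - A) v| ≤ 1 / (8 * k)

/-- **FOU**: the average of `pr A B` over `k T - k T` is nearly invariant under `x` if the large
spectrum of `T` is nearly trivial at `x`. -/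
def S_FOU : Prop :=
  ∀ (N : ℕ) [NeZero N] (A B T : Finset (ZMod N)) (M : ℝ) (k : ℕ),
    A.Nonempty → T.Nonempty → 0 < M → (B.card : ℝ) ≤ M * A.card → 16 * M ≤ 4 ^ k →
    ∀ x : ZMod N, (∀ γ : ZMod N, (T.card : ℝ) ^ 2 ≤ 4 * wt T γ → ‖ψ (γ * x) - 1‖ ≤ 1 / (8 * M)) →
      |av k T (pr A B) x - av k T (pr A B) 0| ≤ 1 / 4

/-- **SAN**: the argument of Sanders. -/
def S_SAN : Prop :=
  ∃ C : ℝ, 0 < C ∧ ∀ (N : ℕ) [NeZero N] (A X : Finset (ZMod N)) (M : ℝ),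
    A.Nonempty → X.Nonempty → 2 ≤ M → ((A + X).card : ℝ) ≤ M * A.card →
    ((A - A).card : ℝ) ≤ M * A.card →
    ∃ T ⊆ X, T.Nonempty ∧ (X.card : ℝ) ≤ Real.exp (C * Real.log M ^ 4) * T.card ∧
      ∀ x : ZMod N, (∀ γ : ZMod N, (T.card : ℝ) ^ 2 ≤ 4 * wt T γ → ‖ψ (γ * x) - 1‖ ≤ 1 / (8 * M)) →
        ∃ a₁ ∈ A, ∃ a₂ ∈ A, ∃ a₃ ∈ A, ∃ a₄ ∈ A, x = a₁ + a₂ - a₃ - a₄

/-- **CHD**: Chang's inequality for a set of characters dissociated relative to `X`. -/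
def S_CHD : Prop :=
  ∀ (N : ℕ) [NeZero N] (X T Λ : Finset (ZMod N)) (q : ℝ) (k₀ : ℕ),
    T ⊆ X → T.Nonempty → (X.card : ℝ) ≤ Real.exp q * T.card →
    (∀ l ∈ Λ, (T.card : ℝ) ^ 2 ≤ 4 * wt T l) → Λ.card ≤ k₀ →
    (∀ e : ZMod N → ℤ, (∀ l, |e l| ≤ 1) → (∃ l ∈ Λ, e l ≠ 0) →
      ‖∑ y ∈ X, ψ ((∑ l ∈ Λ, (e l : ZMod N) * l) * y)‖ ≤ (1 / 2) ^ k₀ * X.card) →
    (Λ.card : ℝ) ≤ 8 * (q + 1)

/-- **CHG**: local version of Chang's theorem. -/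
def S_CHG : Prop :=
  ∀ (N : ℕ) [NeZero N] (X T : Finset (ZMod N)) (q : ℝ), 0 ≤ q →
    T ⊆ X → T.Nonempty → (X.card : ℝ) ≤ Real.exp q * T.card →
    ∃ Λ : Finset (ZMod N), (Λ.card : ℝ) ≤ 8 * (q + 1) ∧
      ∀ γ : ZMod N, (T.card : ℝ) ^ 2 ≤ 4 * wt T γ →
        ∃ e : ZMod N → ℤ, (∀ l, |e l| ≤ 1) ∧
          Real.exp (-(8 * q + 9)) * X.card ≤ ‖∑ y ∈ X, ψ ((γ - ∑ l ∈ Λ, (e l : ZMod N) * l) * y)‖

/-- **ABS**: Bogolyubov-Ruzsa relative to a set `X`. -/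
def S_ABS : Prop :=
  ∃ C : ℝ, 1 ≤ C ∧ ∀ (N : ℕ) [NeZero N] (A X : Finset (ZMod N)) (M : ℝ),
    A.Nonempty → X.Nonempty → 2 ≤ M → ((A + X).card : ℝ) ≤ M * A.card →
    ((A - A).card : ℝ) ≤ M * A.card →
    ∃ Λ : Finset (ZMod N), (Λ.card : ℝ) ≤ C * Real.log M ^ 4 ∧
      ∀ x : ZMod N, (∀ l ∈ Λ, ‖ψ (l * x) - 1‖ ≤ Real.exp (-(C * Real.log M))) →
        ((X.card : ℝ) - cnt X x ≤ Real.exp (-(C * Real.log M ^ 4)) * X.card) →
        ∃ a₁ ∈ A, ∃ a₂ ∈ A, ∃ a₃ ∈ A, ∃ a₄ ∈ A, x = a₁ + a₂ - a₃ - a₄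

/-- **MUL**: a small radius costs a factor in the number of frequencies. -/
def S_MUL : Prop :=
  ∀ (N : ℕ) [NeZero N] (Λ : Finset (ZMod N)) (R : ℝ) (j : ℕ), 2 ≤ R →
    ∃ Γ : Finset (ZMod N), Γ.card ≤ (j + 1) * Λ.card ∧
      ∀ x : ZMod N, (∀ g ∈ Γ, CB.nn (g * x) ≤ 1 / (8 * R)) →
        ∀ l ∈ Λ, ‖ψ (l * x) - 1‖ ≤ 1 / R ^ j

/-- the coset progression `H + {∑ mᵢ aᵢ : |mᵢ| ≤ Lᵢ}` -/
noncomputable def XH {N : ℕ} [NeZero N] (H : AddSubgroup (ZMod N)) {d : ℕ} (a : Fin d → ZMod N) (L : Fin d → ℕ) :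
    Finset (ZMod N) := by
  classical
  exact univ.filter fun x => ∃ m : Fin d → ℤ, (∀ i, |m i| ≤ L i) ∧ x - ev a m ∈ H

/-- the coset progression is proper -/
def PrH {N : ℕ} (H : AddSubgroup (ZMod N)) {d : ℕ} (a : Fin d → ZMod N) (L : Fin d → ℕ) : Prop :=
  ∀ m m' : Fin d → ℤ, (∀ i, |m i| ≤ L i) → (∀ i, |m' i| ≤ L i) → ev a m - ev a m' ∈ H → m = m'

/-- **XHC**: size of a proper coset progression, and its near invariance. -/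
def S_XHC : Prop :=
  ∀ (N : ℕ) [NeZero N] (H : AddSubgroup (ZMod N)) (d : ℕ) (a : Fin d → ZMod N) (L : Fin d → ℕ), PrH H a L →
    (XH H a L).card = Nat.card H * (box L).card ∧
    ∀ (x : ZMod N) (m : Fin d → ℤ), x - ev a m ∈ H → (∀ i, |m i| ≤ L i) →
      ((XH H a L).card : ℝ) - cnt (XH H a L) x ≤ (XH H a L).card * ∑ i, |(m i : ℝ)| / (2 * L i + 1)

/-- `κ (1 + log (1 + κ))`, `κ = log (2 K)` -/
noncomputable def kap (K : ℝ) : ℝ := Real.log (2 * K) * (1 + Real.log (1 + Real.log (2 * K)))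

/-- **PFX**: sets of small doubling and proper coset progressions of small dimension. -/
def S_PFX : Prop :=
  ∀ (N : ℕ) [NeZero N] (A : Finset (ZMod N)) (K : ℝ), A.Nonempty → ((A + A).card : ℝ) ≤ K * A.card →
    ∃ (H : AddSubgroup (ZMod N)) (d : ℕ) (a : Fin d → ZMod N) (L : Fin d → ℕ),
      (d : ℝ) ≤ 300 * Real.log (2 * K) ∧ PrH H a L ∧
      ((A + XH H a L).card : ℝ) ≤ Real.exp (20000 * kap K) * A.card ∧
      (A.card : ℝ) ≤ Real.exp (20000 * kap K) * (Nat.card H * (box L).card)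

/-- **TH1**: the main theorem for sets of small doubling. -/
def S_TH1 : Prop :=
  ∃ C : ℝ, 0 < C ∧ ∀ (N : ℕ) [NeZero N] (A : Finset (ZMod N)) (K R : ℝ), A.Nonempty →
    ((A + A).card : ℝ) ≤ K * A.card → 300 * Real.log (2 * K) + 2 ≤ R →
    ∃ Γ : Finset (ZMod N),
      (Γ.card : ℝ) ≤ C * ((Real.log ((N : ℝ) / A.card) + kap K ^ 5) / Real.log R + kap K ^ 4) ∧
      ∀ x : ZMod N, (∀ g ∈ Γ, CB.nn (g * x) ≤ 1 / (8 * R)) →
        ∃ a₁ ∈ A, ∃ a₂ ∈ A, ∃ a₃ ∈ A, ∃ a₄ ∈ A, x = a₁ + a₂ - a₃ - a₄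

end Pool.Agent.Y881.CS
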