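import Pool.Agent.Y881.CS.Th1
import Pool.Agent.Y836.CS.MZ
import Pool.Agent.Y547.CS.CS
import Pool.Agent.Y727.CS.PER
import Pool.Agent.Y369.CS.Fou
import Pool.Agent.Y727.CS.SAN
import Pool.Agent.Y162.CS.CHD
import Pool.Agent.Y455.CS.Chg
import Pool.Agent.Y260.CS.ABS
import Pool.Agent.Y405.CS.Mul
import Pool.Agent.Y254.CS.PFX

/-! Project CS: assembly of the main theorem (helper881), from the files of helpers 836, 547, 727, 369, 162, 455,
260, 405, 254. -/

set_option autoImplicit false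

namespace Pool.Agent.Y881.CS

theorem abs_holds : S_ABS :=
  Pool.Agent.Y260.CS.t_ABS
    (Pool.Agent.Y727.CS.t_SAN (Pool.Agent.Y727.CS.t_PER (Pool.Agent.Y547.CS.t_CS Pool.Agent.Y836.CS.t_MZ))
      Pool.Agent.Y369.CS.t_FOU)
    (Pool.Agent.Y455.CS.t_CHG Pool.Agent.Y162.CS.t_CHD)

/-- Bogolyubov-Ruzsa in `ℤ/N` for sets of small doubling, with Bohr sets of small dimension and large radius. -/
theorem th1_holds : S_TH1 :=
  t_TH1 abs_holds Pool.Agent.Y405.CS.t_MUL Pool.Agent.Y455.CS.t_XHC Pool.Agent.Y254.CS.t_PFX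

end Pool.Agent.Y881.CS
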