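import Pool.Agent.Y881.CS.Stm
import Pool.Agent.H217R3.AK.Bsg

/-! Project CS: from small doubling to large additive energy of a subset; numerical part (helper881). -/

set_option autoImplicit false

namespace Pool.Agent.Y881.CS

open Finset Pool.Agent.TH858 Pool.Agent.TH858.GP
open scoped Pointwise

lemma kap5_le (κ : ℝ) (hκ : 0.69 ≤ κ) : (κ * (1 + Real.log (1 + κ))) ^ 5 ≤ 7700 * κ ^ 6 := by
  have h0 : (0 : ℝ) < 1 + κ := by linarith
  obtain ⟨w, hw⟩ : ∃ w : ℝ, w = (1 + κ) ^ ((1 : ℝ) / 5) := ⟨_, rfl⟩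
  have hw0 : 0 < w := by rw [hw]; positivity
  have hw5 : w ^ 5 = 1 + κ := by
    rw [hw, ← Real.rpow_natCast, ← Real.rpow_mul h0.le]
    norm_num
  have h1 : Real.log (1 + κ) ≤ 5 * (w - 1) := by
    rw [← hw5, Real.log_pow]
    have := Real.log_le_sub_one_of_pos hw0
    push_cast
    linarith
  have h2 : 1 + Real.log (1 + κ) ≤ 5 * w := by linarith
  have h3 : 0 ≤ 1 + Real.log (1 + κ) := by
    have := Real.log_nonneg (show (1 : ℝ) ≤ 1 + κ by linarith)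
    linarith
  have h4 : (1 + Real.log (1 + κ)) ^ 5 ≤ 3125 * (1 + κ) := by
    calc (1 + Real.log (1 + κ)) ^ 5 ≤ (5 * w) ^ 5 := pow_le_pow_left₀ h3 h2 5
      _ = 3125 * w ^ 5 := by ring
      _ = _ := by rw [hw5]
  have h5 : 3125 * (1 + κ) ≤ 7700 * κ := by linarith
  rw [mul_pow]
  have h6 : κ ^ 6 = κ ^ 5 * κ := by ring
  rw [h6]
  have h7 : 0 ≤ κ ^ 5 := by positivity
  nlinarith [mul_le_mul_of_nonneg_left (h4.trans h5) h7]

lemma pow4_log_le (ℓ D k : ℝ) (hℓ : 0.69 ≤ ℓ) (hD : 0 ≤ D) (hk0 : 0 ≤ k) (hk : k ^ 5 ≤ D * ℓ) :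
    k ^ 4 * Real.log (2 + ℓ) ≤ 13 * (D + 1) ^ 4 * ℓ := by
  have hℓ0 : (0 : ℝ) < ℓ := by linarith
  obtain ⟨w, hw⟩ : ∃ w : ℝ, w = ℓ ^ ((1 : ℝ) / 5) := ⟨_, rfl⟩
  have hw0 : 0 < w := by rw [hw]; positivity
  have hw5 : w ^ 5 = ℓ := by
    rw [hw, ← Real.rpow_natCast, ← Real.rpow_mul hℓ0.le]
    norm_num
  have hw1 : 0.69 ≤ w := by
    by_contra hcon
    push Not at hcon
    have h1 : w ^ 5 < 0.69 ^ 5 := pow_lt_pow_left₀ hcon hw0.le (by norm_num)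
    rw [hw5] at h1
    norm_num at h1
    linarith
  have hkw : k ≤ (D + 1) * w := by
    by_contra hcon
    push Not at hcon
    have h1 : ((D + 1) * w) ^ 5 < k ^ 5 := pow_lt_pow_left₀ hcon (by positivity) (by norm_num)
    have h2 : D * ℓ ≤ ((D + 1) * w) ^ 5 := by
      rw [mul_pow, hw5]
      refine mul_le_mul_of_nonneg_right ?_ hℓ0.le
      have h3 : D + 1 ≤ (D + 1) ^ 5 := by
        calc D + 1 = (D + 1) ^ 1 := (pow_one _).symm
          _ ≤ (D + 1) ^ 5 := pow_le_pow_right₀ (by linarith) (by norm_num)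
      linarith
    linarith
  have hlog : Real.log (2 + ℓ) ≤ 13 * w := by
    have h1 : 2 + ℓ ≤ (2 + w) ^ 5 := by
      rw [← hw5]
      have : (2 + w) ^ 5 = w ^ 5 + 10 * w ^ 4 + 40 * w ^ 3 + 80 * w ^ 2 + 80 * w + 32 := by ring
      rw [this]
      have : 0 ≤ 10 * w ^ 4 + 40 * w ^ 3 + 80 * w ^ 2 + 80 * w := by positivity
      linarith
    have h2 := Real.log_le_log (by linarith) h1
    rw [Real.log_pow] at h2
    have h3 := Real.log_le_sub_one_of_pos (show (0 : ℝ) < 2 + w by linarith)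
    push_cast at h2
    linarith
  have hlog0 : 0 ≤ Real.log (2 + ℓ) := Real.log_nonneg (by linarith)
  calc k ^ 4 * Real.log (2 + ℓ) ≤ ((D + 1) * w) ^ 4 * (13 * w) :=
        mul_le_mul (pow_le_pow_left₀ hk0 hkw 4) hlog hlog0 (by positivity)
    _ = 13 * (D + 1) ^ 4 * w ^ 5 := by ring
    _ = _ := by rw [hw5]

lemma card_add_self_le {N : ℕ} [NeZero N] (B : Finset (ZMod N)) (D : ℝ) (hB : B.Nonempty)
    (hD : ((B - B).card : ℝ) ≤ D * B.card) : ((B + B).card : ℝ) ≤ D ^ 2 * B.card := by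
  have hc : (0 : ℝ) < B.card := by exact_mod_cast hB.card_pos
  have h1 : ((B + B).card : ℝ) * B.card ≤ ((B - B).card : ℝ) * (B - B).card := by
    exact_mod_cast Finset.ruzsa_triangle_inequality_add_sub_sub B B B
  have h2 : ((B - B).card : ℝ) * (B - B).card ≤ (D * B.card) * (D * B.card) :=
    mul_le_mul hD hD (Nat.cast_nonneg _) ((Nat.cast_nonneg _).trans hD)
  have h3 : ((B + B).card : ℝ) * B.card ≤ (D ^ 2 * B.card) * B.card := by
    calc _ ≤ _ := h1.trans h2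
      _ = _ := by ring
  exact le_of_mul_le_mul_right h3 hc

/-- sets containing a subset of small doubling, after the Balog-Szemerédi-Gowers theorem -/
theorem fin (hth : S_TH1) (C₀ : ℝ) (hC₀ : 0 < C₀) : ∃ C c : ℝ, 0 < C ∧ 0 < c ∧
    ∀ (N : ℕ) [NeZero N] (A A₁ : Finset (ZMod N)) (K : ℝ), A₁ ⊆ A → A₁.Nonempty →
    (A.card : ℝ) / N ≤ 1 / 2 → 1 ≤ K → (A₁.card : ℝ) ^ 3 ≤ K * (A₁.addEnergy A₁ : ℕ) →
    Real.log ((N : ℝ) / A₁.card) ≤ C₀ * Real.log ((N : ℝ) / A.card) →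
    Real.log (2 * K) ^ 6 ≤ C₀ * Real.log ((N : ℝ) / A.card) →
    ∃ (Γ : Finset (ZMod N)) (ε : ℝ), 0 < ε ∧
      (Γ.card : ℝ) ≤ C * (Real.log ((N : ℝ) / A.card) / Real.log (2 + Real.log ((N : ℝ) / A.card))) ∧
      c / Real.log ((N : ℝ) / A.card) ≤ ε ∧
      ∀ x : ZMod N, (∀ g ∈ Γ, CB.nn (g * x) ≤ ε) →
        ∃ a₁ ∈ A, ∃ a₂ ∈ A, ∃ a₃ ∈ A, ∃ a₄ ∈ A, x = a₁ + a₂ - a₃ - a₄ := by
  classical
  obtain ⟨C, hC, hth⟩ := hth
  obtain ⟨D, hD⟩ : ∃ D : ℝ, D = 7700 * 45 ^ 6 * C₀ := ⟨_, rfl⟩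
  have hD0 : 0 < D := by rw [hD]; positivity
  refine ⟨C * ((4 * C₀ + 5 + D) + 13 * (D + 1) ^ 4), 1 / (8 * (13500 * (C₀ + 1) + 20000)), by positivity,
    by positivity, ?_⟩
  intro N _ A A₁ K hsub hne hα hK hE hℓ₁ hκ
  have hNpos : (0 : ℝ) < N := Nat.cast_pos.mpr (NeZero.pos N)
  have hA₁pos : (0 : ℝ) < A₁.card := by exact_mod_cast hne.card_pos
  have hApos : (0 : ℝ) < A.card := by
    exact_mod_cast (hne.mono hsub).card_pos
  obtain ⟨ℓ, hℓ⟩ : ∃ ℓ : ℝ, ℓ = Real.log ((N : ℝ) / A.card) := ⟨_, rfl⟩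
  rw [← hℓ] at hℓ₁ hκ ⊢
  have hℓ0 : 0.69 ≤ ℓ := by
    have h1 : (2 : ℝ) ≤ N / A.card := by
      rw [div_le_iff₀ hNpos] at hα
      rw [le_div_iff₀ hApos]
      linarith
    have h2 := Real.log_le_log (by norm_num) h1
    have h3 := Real.log_two_gt_d9
    rw [hℓ]
    linarith
  have hℓpos : 0 < ℓ := by linarith
  obtain ⟨κ, hκd⟩ : ∃ κ : ℝ, κ = Real.log (2 * K) := ⟨_, rfl⟩
  rw [← hκd] at hκ
  have hκ0 : 0.69 ≤ κ := by
    have h1 : Real.log 2 ≤ Real.log (2 * K) := Real.log_le_log (by norm_num) (by linarith)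
    have h2 := Real.log_two_gt_d9
    rw [hκd]; linarith
  have hκ1 : κ ≤ C₀ * ℓ + 1 := by
    rcases le_total κ 1 with h | h
    · have : 0 ≤ C₀ * ℓ := by positivity
      linarith
    · have h1 : κ ≤ κ ^ 6 := by
        calc κ = κ ^ 1 := (pow_one κ).symm
          _ ≤ κ ^ 6 := pow_le_pow_right₀ h (by norm_num)
      linarith
  obtain ⟨B, hBA, hBne, hBc, hBB⟩ := Pool.Agent.H217R3.AK.bsg A₁ hne K (by linarith) hE
  have hBpos : (0 : ℝ) < B.card := by exact_mod_cast hBne.card_pos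
  have hB2 := card_add_self_le B (2 ^ 22 * K ^ 10) hBne hBB
  obtain ⟨K₂, hK₂⟩ : ∃ K₂ : ℝ, K₂ = (2 ^ 22 * K ^ 10) ^ 2 := ⟨_, rfl⟩
  rw [← hK₂] at hB2
  have hK₂1 : 1 ≤ K₂ := by
    rw [hK₂]
    have h1 : (1 : ℝ) ≤ K ^ 10 := one_le_pow₀ hK
    have h2 : (1 : ℝ) ≤ 2 ^ 22 * K ^ 10 := by
      have : (1 : ℝ) ≤ 2 ^ 22 := by norm_num
      nlinarith
    exact one_le_pow₀ h2
  have hK0 : (0 : ℝ) < K := by linarith
  have hκ₂ : Real.log (2 * K₂) ≤ 45 * κ := by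
    have h1 : 2 * K₂ = 2 ^ 45 * K ^ 20 := by rw [hK₂]; ring
    rw [h1, Real.log_mul (by positivity) (by positivity), Real.log_pow, Real.log_pow, hκd,
      Real.log_mul (by norm_num) hK0.ne']
    push_cast
    have := Real.log_nonneg hK
    linarith
  have hκ₂0 : 0.69 ≤ Real.log (2 * K₂) := by
    have h1 : Real.log 2 ≤ Real.log (2 * K₂) := Real.log_le_log (by norm_num) (by linarith)
    have h2 := Real.log_two_gt_d9
    linarith
  obtain ⟨R, hR⟩ : ∃ R : ℝ, R = 13500 * ((C₀ + 1) * ℓ + 1) + 2 := ⟨_, rfl⟩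
  have hRκ : 300 * Real.log (2 * K₂) + 2 ≤ R := by
    rw [hR]
    have : (C₀ + 1) * ℓ = C₀ * ℓ + ℓ := by ring
    rw [this]
    linarith
  have hRℓ : 2 + ℓ ≤ R := by
    rw [hR]
    have : 0 ≤ C₀ * ℓ := by positivity
    nlinarith
  have hRup : R ≤ (13500 * (C₀ + 1) + 20000) * ℓ := by
    rw [hR]
    nlinarith
  have hR0 : 0 < R := by linarith
  obtain ⟨Γ, hΓ, hΓ'⟩ := hth N B K₂ R hBne hB2 hRκ
  refine ⟨Γ, 1 / (8 * R), by positivity, ?_, ?_, ?_⟩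
  · -- the count
    have hkap : kap K₂ ^ 5 ≤ D * ℓ := by
      have h1 := kap5_le (Real.log (2 * K₂)) hκ₂0
      have h2 : kap K₂ = Real.log (2 * K₂) * (1 + Real.log (1 + Real.log (2 * K₂))) := rfl
      rw [← h2] at h1
      have h3 : Real.log (2 * K₂) ^ 6 ≤ (45 * κ) ^ 6 := pow_le_pow_left₀ (by linarith) hκ₂ 6
      have h4 : (45 * κ) ^ 6 = 45 ^ 6 * κ ^ 6 := by ring
      rw [h4] at h3
      rw [hD]
      nlinarith
    have hkap0 : 0 ≤ kap K₂ := by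
      unfold kap
      have := Real.log_nonneg (show (1 : ℝ) ≤ 1 + Real.log (2 * K₂) by linarith)
      have h2 : 0 ≤ Real.log (2 * K₂) := by linarith
      positivity
    have hlog2 : 0 < Real.log (2 + ℓ) := Real.log_pos (by linarith)
    have hlogR : Real.log (2 + ℓ) ≤ Real.log R := Real.log_le_log (by linarith) hRℓ
    have hℓB : Real.log ((N : ℝ) / B.card) ≤ (4 * C₀ + 5) * ℓ := by
      have h1 : (N : ℝ) / B.card ≤ (N / A₁.card) * (8 * K) := by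
        rw [div_le_iff₀ hBpos]
        have e : (N : ℝ) = N / A₁.card * A₁.card := (div_mul_cancel₀ _ hA₁pos.ne').symm
        calc (N : ℝ) = N / A₁.card * A₁.card := e
          _ ≤ N / A₁.card * (8 * K * B.card) := mul_le_mul_of_nonneg_left hBc (div_nonneg hNpos.le hA₁pos.le)
          _ = _ := by ring
      have h2 := Real.log_le_log (div_pos hNpos hBpos) h1
      rw [Real.log_mul (div_pos hNpos hA₁pos).ne' (by positivity)] at h2
      have h3 : Real.log (8 * K) ≤ 3 * κ := by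
        rw [hκd, Real.log_mul (by norm_num) hK0.ne', Real.log_mul (by norm_num) hK0.ne']
        have h4 : Real.log 8 = 3 * Real.log 2 := by
          rw [show (8 : ℝ) = 2 ^ 3 by norm_num, Real.log_pow]; norm_num
        have := Real.log_nonneg hK
        rw [h4]
        linarith
      have : (4 * C₀ + 5) * ℓ = 4 * (C₀ * ℓ) + 5 * ℓ := by ring
      rw [this]
      linarith
    have h1 : (Real.log ((N : ℝ) / B.card) + kap K₂ ^ 5) / Real.log R ≤
        (4 * C₀ + 5 + D) * (ℓ / Real.log (2 + ℓ)) := by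
      rw [← mul_div_assoc]
      apply div_le_div₀ (by positivity) _ hlog2 hlogR
      have : (4 * C₀ + 5 + D) * ℓ = (4 * C₀ + 5) * ℓ + D * ℓ := by ring
      rw [this]
      linarith
    have h2 : kap K₂ ^ 4 ≤ 13 * (D + 1) ^ 4 * (ℓ / Real.log (2 + ℓ)) := by
      rw [← mul_div_assoc, le_div_iff₀ hlog2]
      exact pow4_log_le ℓ D (kap K₂) hℓ0 hD0.le hkap0 hkap
    refine hΓ.trans ?_
    rw [mul_assoc]
    refine mul_le_mul_of_nonneg_left ?_ hC.le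
    rw [add_mul]
    exact add_le_add h1 h2
  · rw [div_div, div_le_div_iff₀ (by positivity) (by positivity)]
    nlinarith
  · intro x hx
    obtain ⟨a₁, h1, a₂, h2, a₃, h3, a₄, h4, h5⟩ := hΓ' x hx
    exact ⟨a₁, hsub (hBA h1), a₂, hsub (hBA h2), a₃, hsub (hBA h3), a₄, hsub (hBA h4), h5⟩

end Pool.Agent.Y881.CS
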