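import Pool.Agent.Y881.CS.Stm

/-! Project CS: the main theorem for sets of small doubling (helper881). -/

set_option autoImplicit false

namespace Pool.Agent.Y881.CS

open Finset Pool.Agent.TH858 Pool.Agent.TH858.GP
open scoped Pointwise

lemma log2K_ge (K : ℝ) (hK : 1 ≤ K) : 0.69 ≤ Real.log (2 * K) := by
  have h1 : Real.log 2 ≤ Real.log (2 * K) := Real.log_le_log (by norm_num) (by linarith)
  have h2 := Real.log_two_gt_d9
  linarith

lemma log_le_kap (K : ℝ) (hK : 1 ≤ K) : Real.log (2 * K) ≤ kap K := by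
  have h1 := log2K_ge K hK
  have h2 : 0 ≤ Real.log (1 + Real.log (2 * K)) := Real.log_nonneg (by linarith)
  unfold kap
  nlinarith

lemma one_le_kap (K : ℝ) (hK : 1 ≤ K) : 1 ≤ kap K := by
  have h1 := log2K_ge K hK
  have h2 : (1 / 2 : ℝ) ≤ Real.log (1 + Real.log (2 * K)) := by
    rw [Real.le_log_iff_exp_le (by linarith)]
    have h3 : Real.exp (1 / 2) ^ 2 = Real.exp 1 := by
      rw [← Real.exp_nat_mul]; norm_num
    have h4 := Real.exp_one_lt_d9
    have h5 : 0 < Real.exp (1 / 2) := Real.exp_pos _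
    have h6 : Real.exp (1 / 2) ≤ 1.69 := by
      by_contra h
      push Not at h
      nlinarith
    linarith
  unfold kap
  nlinarith

lemma card_sub_self_le {N : ℕ} [NeZero N] (A : Finset (ZMod N)) (K : ℝ) (hA : A.Nonempty)
    (hK : ((A + A).card : ℝ) ≤ K * A.card) : ((A - A).card : ℝ) ≤ K ^ 2 * A.card := by
  have hc : (0 : ℝ) < A.card := by exact_mod_cast hA.card_pos
  have h1 : ((A - A).card : ℝ) * A.card ≤ ((A + A).card : ℝ) * (A + A).card := by
    exact_mod_cast Finset.ruzsa_triangle_inequality_sub_add_add A A A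
  have h2 : ((A + A).card : ℝ) * (A + A).card ≤ (K * A.card) * (K * A.card) :=
    mul_le_mul hK hK (Nat.cast_nonneg _) ((Nat.cast_nonneg _).trans hK)
  have h3 : ((A - A).card : ℝ) * A.card ≤ (K ^ 2 * A.card) * A.card := by
    calc _ ≤ _ := h1.trans h2
      _ = _ := by ring
  exact le_of_mul_le_mul_right h3 hc

lemma one_le_K {N : ℕ} [NeZero N] (A : Finset (ZMod N)) (K : ℝ) (hA : A.Nonempty)
    (hK : ((A + A).card : ℝ) ≤ K * A.card) : 1 ≤ K := by
  have hc : (0 : ℝ) < A.card := by exact_mod_cast hA.card_pos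
  have h1 : (A.card : ℝ) ≤ (A + A).card := by
    exact_mod_cast Finset.card_le_card_add_right hA
  nlinarith

lemma kpow (k : ℝ) (hk : 1 ≤ k) : k ≤ k ^ 5 ∧ k ^ 2 ≤ k ^ 5 ∧ k ≤ k ^ 4 ∧ 1 ≤ k ^ 4 := by
  refine ⟨?_, pow_le_pow_right₀ hk (by norm_num), ?_, one_le_pow₀ hk⟩
  · calc k = k ^ 1 := (pow_one k).symm
      _ ≤ k ^ 5 := pow_le_pow_right₀ hk (by norm_num)
  · calc k = k ^ 1 := (pow_one k).symm
      _ ≤ k ^ 4 := pow_le_pow_right₀ hk (by norm_num)

/-- numeric part of the count -/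
lemma num1 (C k μ T d P : ℝ) (hk : 1 ≤ k) (hT : T = 20000) (hμ : μ = T * k)
    (hd : d ≤ 300 * k) (hP0 : 0 ≤ P) (hP : P ≤ 4 * (d + 1) + C * μ ^ 4) :
    μ + d * P ≤ (400000 + 300 * C * T ^ 4) * k ^ 5 := by
  obtain ⟨h1, h2, -, -⟩ := kpow k hk
  have h3 : d * P ≤ (300 * k) * (4 * (301 * k) + C * μ ^ 4) := by
    calc d * P ≤ (300 * k) * P := mul_le_mul_of_nonneg_right hd hP0
      _ ≤ (300 * k) * (4 * (301 * k) + C * μ ^ 4) := by
          refine mul_le_mul_of_nonneg_left (hP.trans ?_) (by positivity)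
          linarith
  have h4 : (300 * k) * (4 * (301 * k) + C * μ ^ 4) = 361200 * k ^ 2 + (300 * C * T ^ 4) * k ^ 5 := by
    rw [hμ]; ring
  rw [h4] at h3
  have h5 : μ ≤ 20000 * k ^ 5 := by rw [hμ, hT]; linarith
  have h6 : 0 ≤ k ^ 5 := by positivity
  have h7 : (400000 + 300 * C * T ^ 4) * k ^ 5 = 400000 * k ^ 5 + (300 * C * T ^ 4) * k ^ 5 := by ring
  rw [h7]
  linarith

lemma num2 (D E F G u v w x y : ℝ) (hE : 0 ≤ E) (hF : 0 ≤ F) (hD : 0 ≤ D)
    (hu : 0 ≤ u) (hv : 0 ≤ v) (hw : 0 ≤ w)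
    (hx : x ≤ 52501 * w + 5 * (u + D * v)) (hy : y ≤ E * v + F * w) (hG : G ≤ x + y) :
    G ≤ (5 + 5 * D + E + (52501 + F)) * ((u + v) + w) := by
  have t1 := mul_nonneg hD hu
  have t2 := mul_nonneg hD hw
  have t3 := mul_nonneg hE hu
  have t4 := mul_nonneg hE hw
  have t5 := mul_nonneg hF hu
  have t6 := mul_nonneg hF hv
  have e : (5 + 5 * D + E + (52501 + F)) * ((u + v) + w) =
    (52501 * w + 5 * (u + D * v)) + (E * v + F * w) + (5 * (D * u) + 5 * (D * w) + E * u + E * w + F * u + F * v +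
      52501 * u + 52506 * v + 5 * w) := by ring
  rw [e]
  linarith

theorem t_TH1 (habs : S_ABS) (hmul : S_MUL) (hxhc : S_XHC) (hpfx : S_PFX) : S_TH1 := by
  classical
  obtain ⟨C, hC1, hABS⟩ := habs
  have hC0 : 0 < C := by linarith
  refine ⟨5 + 5 * (400000 + 300 * C * 20000 ^ 4) + C ^ 2 * 20000 ^ 5 + (52501 + 2 * C * 20000 ^ 4),
    by positivity, ?_⟩
  intro N _ A K R hA hK hR
  have hK1 := one_le_K A K hA hK
  obtain ⟨H, d, a, L, hd, hpr, hAX, hAc⟩ := hpfx N A K hA hK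
  obtain ⟨k, hk⟩ : ∃ k : ℝ, k = kap K := ⟨_, rfl⟩
  have hk1 : 1 ≤ k := by rw [hk]; exact one_le_kap K hK1
  have hlogk : Real.log (2 * K) ≤ k := by rw [hk]; exact log_le_kap K hK1
  have hlog0 := log2K_ge K hK1
  rw [← hk] at hAX hAc
  obtain ⟨μ, hμ⟩ : ∃ μ : ℝ, μ = 20000 * k := ⟨_, rfl⟩
  rw [← hμ] at hAX hAc
  have hμ1 : 20000 ≤ μ := by rw [hμ]; linarith
  have hμ0 : 0 < μ := by linarith
  have hNpos : (0 : ℝ) < N := Nat.cast_pos.mpr (NeZero.pos N)
  have hApos : (0 : ℝ) < A.card := by exact_mod_cast hA.card_pos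
  have hR2 : 2 ≤ R := by linarith
  have hR0 : 0 < R := by linarith
  have hlogR : 0 < Real.log R := Real.log_pos (by linarith)
  obtain ⟨hXcard, hinv⟩ := hxhc N H d a L hpr
  have hHB : (0 : ℝ) < (Nat.card H : ℝ) * (box L).card := by
    by_contra hcon
    push Not at hcon
    have : (A.card : ℝ) ≤ 0 := hAc.trans (mul_nonpos_of_nonneg_of_nonpos (Real.exp_pos _).le hcon)
    linarith
  have hXne : (XH H a L).Nonempty := by
    rw [← card_pos, hXcard]
    exact_mod_cast hHB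
  have hM2 : (2 : ℝ) ≤ Real.exp μ := by
    have := Real.add_one_le_exp μ
    linarith
  have hK2 : K ^ 2 ≤ Real.exp μ := by
    have h1 : K ^ 2 ≤ Real.exp (2 * Real.log (2 * K)) := by
      have h2 : Real.exp (2 * Real.log (2 * K)) = (2 * K) ^ 2 := by
        rw [mul_comm, Real.exp_mul, Real.exp_log (by linarith)]
        norm_num
      rw [h2]
      nlinarith
    refine h1.trans (Real.exp_le_exp.2 ?_)
    rw [hμ]
    linarith
  have hAA : ((A - A).card : ℝ) ≤ Real.exp μ * A.card :=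
    (card_sub_self_le A K hA hK).trans (mul_le_mul_of_nonneg_right hK2 hApos.le)
  obtain ⟨Λ, hΛcard, hΛ⟩ := hABS N A (XH H a L) (Real.exp μ) hA hXne hM2 hAX hAA
  rw [Real.log_exp] at hΛcard hΛ
  obtain ⟨j, hj⟩ : ∃ j : ℕ, j = ⌈C * μ / Real.log R⌉₊ := ⟨_, rfl⟩
  have hj1 : C * μ / Real.log R ≤ j := by rw [hj]; exact Nat.le_ceil _
  have hj2 : (j : ℝ) ≤ C * μ / Real.log R + 1 := by
    rw [hj]; exact (Nat.ceil_lt_add_one (by positivity)).le
  obtain ⟨Γ₁, hΓ₁card, hΓ₁⟩ := hmul N Λ R j hR2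
  have hRj : 1 / R ^ j ≤ Real.exp (-(C * μ)) := by
    rw [Real.exp_neg, ← one_div]
    apply one_div_le_one_div_of_le (Real.exp_pos _)
    rw [← Real.exp_log (pow_pos hR0 j), Real.log_pow]
    apply Real.exp_le_exp.2
    rw [div_le_iff₀ hlogR] at hj1
    exact hj1
  obtain ⟨ρ, hρ⟩ : ∃ ρ : ℕ, ρ = ⌈((d : ℝ) + 1) * Real.exp (C * μ ^ 4)⌉₊ := ⟨_, rfl⟩
  have hd0 : (0 : ℝ) ≤ d := Nat.cast_nonneg d
  have hE1 : (1 : ℝ) ≤ Real.exp (C * μ ^ 4) := Real.one_le_exp (by positivity)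
  have hρ1 : ((d : ℝ) + 1) * Real.exp (C * μ ^ 4) ≤ ρ := by rw [hρ]; exact Nat.le_ceil _
  have hρ2 : (ρ : ℝ) ≤ ((d : ℝ) + 1) * Real.exp (C * μ ^ 4) + 1 := by
    rw [hρ]; exact (Nat.ceil_lt_add_one (by positivity)).le
  have hρpos : (0 : ℝ) < ρ := by nlinarith
  have hρposn : 0 < ρ := by exact_mod_cast hρpos
  obtain ⟨L₃, hL₃⟩ : ∃ L₃ : Fin d → ℕ, L₃ = fun i => L i / ρ := ⟨_, rfl⟩
  have hL₃1 : ∀ i, L₃ i * ρ ≤ L i := fun i => by rw [hL₃]; exact Nat.div_mul_le_self _ _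
  have hL₃2 : ∀ i, L i < ρ * (L₃ i + 1) := fun i => by
    rw [hL₃]; exact Nat.lt_mul_div_succ _ hρposn
  have hL₃le : ∀ i, L₃ i ≤ L i := fun i => by rw [hL₃]; exact Nat.div_le_self _ _
  have hdR : (d : ℝ) + 2 ≤ R := by linarith
  obtain ⟨Γ₀, hΓ₀card, hΓ₀⟩ := coset H a L₃ (fun m m' hm hm' h => hpr m m'
    (fun i => (hm i).trans (by exact_mod_cast hL₃le i))
    (fun i => (hm' i).trans (by exact_mod_cast hL₃le i)) h) R hdR
  refine ⟨Γ₀ ∪ Γ₁, ?_, ?_⟩
  · -- the count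
    rw [← hk]
    have hb3 : (0 : ℝ) < (box L₃).card := by
      have : (box L₃).Nonempty := ⟨0, by rw [mem_box]; intro i; simp⟩
      exact_mod_cast this.card_pos
    have hHpos : (0 : ℝ) < (Nat.card H : ℝ) := by
      have := Nat.card_pos (α := H)
      exact_mod_cast this
    have hbox : ((box L).card : ℝ) ≤ (2 * ρ) ^ d * (box L₃).card := by
      rw [card_box, card_box]
      push_cast
      have h3 : (2 * (ρ : ℝ)) ^ d = ∏ _i : Fin d, (2 * (ρ : ℝ)) := by
        rw [prod_const, card_univ, Fintype.card_fin]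
      rw [h3, ← prod_mul_distrib]
      refine prod_le_prod (fun i _ => by positivity) fun i _ => ?_
      have h4 : (L i : ℝ) + 1 ≤ ρ * (L₃ i + 1) := by exact_mod_cast hL₃2 i
      have h5 : 0 ≤ (ρ : ℝ) * L₃ i := by positivity
      nlinarith
    have hlog : Real.log (N / (Nat.card H * (box L₃).card)) ≤
        Real.log (N / A.card) + μ + d * Real.log (2 * ρ) := by
      have h1 : (N : ℝ) / (Nat.card H * (box L₃).card) ≤ (N / A.card) * Real.exp μ * (2 * ρ) ^ d := by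
        rw [div_le_iff₀ (by positivity)]
        have h2 : (A.card : ℝ) ≤ Real.exp μ * (Nat.card H * ((2 * ρ) ^ d * (box L₃).card)) :=
          hAc.trans (mul_le_mul_of_nonneg_left (mul_le_mul_of_nonneg_left hbox hHpos.le) (Real.exp_pos _).le)
        have h3 : (N : ℝ) = N / A.card * A.card := (div_mul_cancel₀ _ hApos.ne').symm
        calc (N : ℝ) = N / A.card * A.card := h3
          _ ≤ N / A.card * (Real.exp μ * (Nat.card H * ((2 * ρ) ^ d * (box L₃).card))) :=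
              mul_le_mul_of_nonneg_left h2 (div_nonneg hNpos.le hApos.le)
          _ = _ := by ring
      have h2 := Real.log_le_log (by positivity) h1
      rw [Real.log_mul (by positivity) (by positivity), Real.log_mul (by positivity) (by positivity),
        Real.log_exp, Real.log_pow] at h2
      exact h2
    have hlogρ : Real.log (2 * ρ) ≤ 4 * (d + 1) + C * μ ^ 4 := by
      have h1 : 2 * (ρ : ℝ) ≤ 4 * (d + 1) * Real.exp (C * μ ^ 4) := by nlinarith
      have h2 := Real.log_le_log (by positivity) h1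
      have e3 : Real.log (4 * ((d : ℝ) + 1) * Real.exp (C * μ ^ 4)) = Real.log (4 * ((d : ℝ) + 1)) + C * μ ^ 4 := by
        rw [Real.log_mul (by positivity) (by positivity), Real.log_exp]
      rw [e3] at h2
      have h3 := Real.log_le_sub_one_of_pos (show (0 : ℝ) < 4 * (d + 1) by positivity)
      linarith
    have hdk : (d : ℝ) ≤ 300 * k := by linarith
    obtain ⟨ℓ, hℓ⟩ : ∃ ℓ : ℝ, ℓ = Real.log ((N : ℝ) / A.card) := ⟨_, rfl⟩
    have hℓ0 : 0 ≤ ℓ := by
      rw [hℓ]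
      apply Real.log_nonneg
      rw [le_div_iff₀ hApos, one_mul]
      have := card_le_univ A
      rw [ZMod.card] at this
      exact_mod_cast this
    rw [← hℓ] at hlog ⊢
    obtain ⟨-, -, hk4, hk5⟩ := kpow k hk1
    have hlog0' : 0 ≤ Real.log (2 * ρ) := Real.log_nonneg (by nlinarith)
    have hlog2 : Real.log (N / (Nat.card H * (box L₃).card)) ≤
        ℓ + (400000 + 300 * C * 20000 ^ 4) * k ^ 5 := by
      have h1 := num1 C k μ 20000 d (Real.log (2 * ρ)) hk1 rfl hμ hdk hlog0' hlogρ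
      linarith
    have hc1 : (Γ₀.card : ℝ) ≤ 52501 * k ^ 4 + 5 * (ℓ / Real.log R + (400000 + 300 * C * 20000 ^ 4) * (k ^ 5 / Real.log R)) := by
      have h1 := div_le_div_of_nonneg_right hlog2 hlogR.le
      have e1 : (ℓ + (400000 + 300 * C * 20000 ^ 4) * k ^ 5) / Real.log R =
        ℓ / Real.log R + (400000 + 300 * C * 20000 ^ 4) * (k ^ 5 / Real.log R) := by ring
      rw [e1] at h1
      linarith
    have hc2 : (Γ₁.card : ℝ) ≤ (C ^ 2 * 20000 ^ 5) * (k ^ 5 / Real.log R) + (2 * C * 20000 ^ 4) * k ^ 4 := by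
      have h1 : (Γ₁.card : ℝ) ≤ (j + 1) * Λ.card := by exact_mod_cast hΓ₁card
      have h2 : ((j : ℝ) + 1) * Λ.card ≤ (C * μ / Real.log R + 2) * (C * μ ^ 4) := by
        apply mul_le_mul _ hΛcard (Nat.cast_nonneg _) (by positivity)
        linarith
      refine (h1.trans h2).trans (le_of_eq ?_)
      rw [hμ]
      ring
    have hc3 : ((Γ₀ ∪ Γ₁).card : ℝ) ≤ Γ₀.card + Γ₁.card := by exact_mod_cast card_union_le Γ₀ Γ₁
    have e2 : (ℓ + k ^ 5) / Real.log R = ℓ / Real.log R + k ^ 5 / Real.log R := by ring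
    rw [e2]
    exact num2 _ _ _ _ _ _ _ _ _ (by positivity) (by positivity) (by positivity) (by positivity) (by positivity)
      (by positivity) hc1 hc2 hc3
  · intro x hx
    obtain ⟨y, hy, m, hm, hxy⟩ := hΓ₀ x fun g hg => hx g (mem_union_left _ hg)
    apply hΛ x
    · intro l hl
      exact (hΓ₁ x (fun g hg => hx g (mem_union_right _ hg)) l hl).trans hRj
    · have h1 : x - ev a m ∈ H := by
        rw [hxy, add_sub_cancel_right]; exact hy
      have h2 := hinv x m h1 (fun i => (hm i).trans (by exact_mod_cast hL₃le i))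
      refine h2.trans ?_
      rw [mul_comm]
      refine mul_le_mul_of_nonneg_right ?_ (Nat.cast_nonneg _)
      have h3 : ∑ i, |(m i : ℝ)| / (2 * L i + 1) ≤ d * (1 / (ρ : ℝ)) := by
        calc ∑ i, |(m i : ℝ)| / (2 * L i + 1) ≤ ∑ _i : Fin d, 1 / (ρ : ℝ) := by
              refine sum_le_sum fun i _ => ?_
              rw [div_le_div_iff₀ (by positivity) hρpos, one_mul]
              have h4 : |(m i : ℝ)| ≤ L₃ i := by exact_mod_cast hm i
              have h5 : (L₃ i : ℝ) * ρ ≤ L i := by exact_mod_cast hL₃1 i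
              have h6 : |(m i : ℝ)| * ρ ≤ L₃ i * ρ := mul_le_mul_of_nonneg_right h4 hρpos.le
              have h7 : (0 : ℝ) ≤ L i := Nat.cast_nonneg _
              linarith
          _ = d * (1 / (ρ : ℝ)) := by rw [sum_const, card_univ, Fintype.card_fin, nsmul_eq_mul]
      refine h3.trans ?_
      rw [Real.exp_neg, mul_one_div, div_le_iff₀ hρpos]
      have h4 : (d : ℝ) + 1 ≤ (Real.exp (C * μ ^ 4))⁻¹ * ρ := by
        rw [inv_mul_eq_div, le_div_iff₀ (Real.exp_pos _)]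
        exact hρ1
      exact (le_add_of_nonneg_right zero_le_one).trans h4

end Pool.Agent.Y881.CS
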